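import Pool.Agent.KDS.StmtsA

/-!
# Squad KDS, row CNS: the gain grows exponentially
-/

set_option autoImplicit false

namespace Pool.Agent.KDS.H49

open Polynomial NumberField H58Q Pool.Agent.SZT Pool.Agent.KDT Pool.Agent.KDS

theorem cns_lev (i : ℕ) : 3 * lev i + 2 = 2 * 4 ^ i := by
  induction i with
  | zero => rfl
  | succ n ih =>
    have h : lev (n + 1) = 4 * lev n + 2 := rfl
    rw [h, pow_succ]
    omega

theorem cns_card (κ J : ℕ) :
    ((Ex κ).filter fun e => jj e < J).card ≤ J * (4 * (κ + 1)) := by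
  classical
  have h1 : ((Ex κ).filter fun e => jj e < J).card ≤
      (Finset.range J ×ˢ ((Finset.range 2 ×ˢ Finset.range (κ + 1)) ∪
        (Finset.range (κ + 1) ×ˢ Finset.range 2))).card := by
    refine Finset.card_le_card_of_injOn (fun e => (jj e, (e 1, e 3))) ?_ ?_
    · intro e he
      rw [Finset.mem_coe, Finset.mem_filter, Ex, Finset.mem_filter] at he
      obtain ⟨⟨-, hs, h13⟩, hJ⟩ := he
      rw [Finset.mem_coe, Finset.mem_product]
      refine ⟨Finset.mem_range.2 hJ, ?_⟩
      rw [Finset.mem_union, Finset.mem_product, Finset.mem_product]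
      rcases h13 with h | h
      · left
        refine ⟨Finset.mem_range.2 ?_, Finset.mem_range.2 ?_⟩
        · show e 1 < 2
          omega
        · show e 3 < κ + 1
          omega
      · right
        refine ⟨Finset.mem_range.2 ?_, Finset.mem_range.2 ?_⟩
        · show e 1 < κ + 1
          omega
        · show e 3 < 2
          omega
    · intro e he e' he' hee
      rw [Finset.mem_coe, Finset.mem_filter, Ex, Finset.mem_filter] at he he'
      obtain ⟨⟨-, hs, -⟩, -⟩ := he
      obtain ⟨⟨-, hs', -⟩, -⟩ := he'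
      have h2 : jj e = jj e' ∧ e 1 = e' 1 ∧ e 3 = e' 3 := by
        exact ⟨congrArg Prod.fst hee, congrArg (fun p => p.2.1) hee,
          congrArg (fun p => p.2.2) hee⟩
      obtain ⟨h3, h4, h5⟩ := h2
      unfold jj at h3
      funext l
      fin_cases l
      · show e 0 = e' 0
        omega
      · show e 1 = e' 1
        exact h4
      · show e 2 = e' 2
        omega
      · show e 3 = e' 3
        exact h5
  refine h1.trans ?_
  rw [Finset.card_product, Finset.card_range]
  refine Nat.mul_le_mul_left J ?_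
  refine (Finset.card_union_le _ _).trans ?_
  rw [Finset.card_product, Finset.card_product, Finset.card_range, Finset.card_range]
  omega

theorem cns_ex2 : Fintype.card (Ex 2) = 10 := by
  rw [Fintype.card_coe]
  decide

theorem cns : CnsStatement := by
  classical
  intro C
  -- choice of `i`
  have hev : ∃ i : ℕ, 4 ≤ i ∧ 1024 * (2 * C + 1 / 2) * i ≤ (25 / 16 : ℝ) ^ i := by
    have h1 := tendsto_pow_const_div_const_pow_of_one_lt 1 (r := (25 / 16 : ℝ)) (by norm_num)
    have hK : 0 < 1 / (1024 * (2 * |C| + 1 / 2)) := by positivity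
    have h2 := h1.eventually (gt_mem_nhds hK)
    obtain ⟨i, hi, hi4⟩ := (h2.and (Filter.eventually_ge_atTop 4)).exists
    refine ⟨i, hi4, ?_⟩
    have hp : (0 : ℝ) < (25 / 16 : ℝ) ^ i := by positivity
    rw [pow_one, div_lt_div_iff₀ hp (by positivity), one_mul] at hi
    have hi0 : (0 : ℝ) ≤ i := Nat.cast_nonneg i
    have hC : C ≤ |C| := le_abs_self C
    nlinarith [mul_le_mul_of_nonneg_right hC hi0]
  obtain ⟨i, hi4, hi⟩ := hev
  refine ⟨i, by omega, ?_⟩
  intro s hs
  have hlev := cns_lev i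
  -- the threshold
  set x : ℝ := (5 / 2 : ℝ) ^ i with hx
  have hx16 : 16 ≤ x := by
    have h1 : (5 / 2 : ℝ) ^ 4 ≤ x := pow_le_pow_right₀ (by norm_num) hi4
    norm_num at h1
    linarith
  set J : ℕ := ⌊x / 8⌋₊ with hJ
  have hJle : (J : ℝ) ≤ x / 8 := Nat.floor_le (by linarith)
  have hJge : x / 16 ≤ (J : ℝ) := by
    have h1 := Nat.lt_floor_add_one (x / 8)
    rw [← hJ] at h1
    linarith
  have h4i : (1 : ℝ) ≤ (4 : ℝ) ^ i := one_le_pow₀ (by norm_num)
  have h10 : (10 : ℝ) ^ i = x * 4 ^ i := by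
    rw [hx, ← mul_pow]
    norm_num
  -- the level
  have hlevR : 3 * (lev i : ℝ) + 2 = 2 * 4 ^ i := by exact_mod_cast hlev
  have hκ1 : (lev i : ℝ) + 1 ≤ 4 ^ i := by linarith
  have h4i4 : (4 : ℝ) ≤ (4 : ℝ) ^ i := by
    have h1 : (4 : ℝ) ^ 1 ≤ (4 : ℝ) ^ i := pow_le_pow_right₀ (by norm_num) (by omega)
    linarith
  have hκpos : 0 < (lev i : ℝ) := by linarith
  -- counting
  set bad : Finset (QI i) := Finset.univ.filter fun q => jj (s q).1 < J with hbad
  have hbadcard : (bad.card : ℝ) ≤ 10 ^ i / 2 := by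
    have h1 : bad.card ≤ ((Ex (lev i)).filter fun e => jj e < J).card := by
      refine Finset.card_le_card_of_injOn (fun q => (s q).1) ?_ ?_
      · intro q hq
        rw [Finset.mem_coe, hbad, Finset.mem_filter] at hq
        rw [Finset.mem_coe, Finset.mem_filter]
        exact ⟨(s q).2, hq.2⟩
      · intro q _ q' _ hqq
        exact hs (Subtype.ext hqq)
    have h2 : (bad.card : ℝ) ≤ (J : ℝ) * (4 * ((lev i : ℝ) + 1)) := by
      have h3 := h1.trans (cns_card (lev i) J)
      exact_mod_cast h3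
    have h3 : (J : ℝ) * (4 * ((lev i : ℝ) + 1)) ≤ x / 8 * (4 * 4 ^ i) := by
      refine mul_le_mul hJle (by linarith) (by positivity) (by linarith)
    rw [h10]
    linarith
  have htot : ((Finset.univ : Finset (QI i)).card : ℝ) = 10 ^ i := by
    rw [Finset.card_univ, Fintype.card_fun, cns_ex2, Fintype.card_fin]
    norm_num
  set good : Finset (QI i) := Finset.univ.filter fun q => ¬ jj (s q).1 < J with hgood
  have hgoodcard : (10 : ℝ) ^ i / 2 ≤ (good.card : ℝ) := by
    have h1 : bad.card + good.card = (Finset.univ : Finset (QI i)).card :=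
      Finset.card_filter_add_card_filter_not _
    have h2 : (bad.card : ℝ) + good.card = 10 ^ i := by
      rw [← htot]
      exact_mod_cast h1
    linarith
  -- the gain of a good column
  set L : ℝ := (J : ℝ) ^ 2 / (4 * lev i) - i / 2 with hL
  have hLC : 2 * (C * i) ≤ L := by
    have h1 : x ^ 2 = (25 / 16 : ℝ) ^ i * 4 ^ i := by
      rw [hx, ← pow_mul, mul_comm i 2, pow_mul, ← mul_pow]
      norm_num
    have h2 : (x / 16) ^ 2 ≤ (J : ℝ) ^ 2 := pow_le_pow_left₀ (by linarith) hJge 2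
    have h3 : (2 * C + 1 / 2) * i ≤ (J : ℝ) ^ 2 / (4 * lev i) := by
      rw [le_div_iff₀ (by linarith)]
      have h4 : (2 * C + 1 / 2) * i ≤ (25 / 16 : ℝ) ^ i / 1024 := by linarith
      have h5 : (2 * C + 1 / 2) * i * (4 * lev i) ≤ (25 / 16 : ℝ) ^ i / 1024 * (4 * lev i) :=
        mul_le_mul_of_nonneg_right h4 (by linarith)
      have h6 : (25 / 16 : ℝ) ^ i / 1024 * (4 * lev i) ≤ (25 / 16 : ℝ) ^ i / 1024 * (4 * 4 ^ i) :=
        mul_le_mul_of_nonneg_left (by linarith) (by positivity)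
      have h7 : (25 / 16 : ℝ) ^ i / 1024 * (4 * 4 ^ i) = (x / 16) ^ 2 := by
        have h8 : (x / 16) ^ 2 = x ^ 2 / 256 := by ring
        rw [h8, h1]
        ring
      linarith
    rw [hL]
    linarith
  have hge : ∀ q ∈ good, L ≤ max 0 ((jj (s q).1 : ℝ) ^ 2 / (4 * lev i) - i / 2) := by
    intro q hq
    rw [hgood, Finset.mem_filter] at hq
    refine le_trans ?_ (le_max_right _ _)
    rw [hL]
    have h1 : (J : ℝ) ≤ (jj (s q).1 : ℝ) := by exact_mod_cast not_lt.1 hq.2
    have h2 : (J : ℝ) ^ 2 ≤ (jj (s q).1 : ℝ) ^ 2 := pow_le_pow_left₀ (Nat.cast_nonneg J) h1 2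
    have h3 : (J : ℝ) ^ 2 / (4 * lev i) ≤ (jj (s q).1 : ℝ) ^ 2 / (4 * lev i) :=
      div_le_div_of_nonneg_right h2 (by linarith)
    linarith
  have hsum : good.card * L ≤ ∑ q, max 0 ((jj (s q).1 : ℝ) ^ 2 / (4 * lev i) - i / 2) := by
    have h1 : ∑ q ∈ good, L ≤ ∑ q ∈ good, max 0 ((jj (s q).1 : ℝ) ^ 2 / (4 * lev i) - i / 2) :=
      Finset.sum_le_sum hge
    rw [Finset.sum_const, nsmul_eq_mul] at h1
    refine h1.trans ?_
    exact Finset.sum_le_sum_of_subset_of_nonneg (Finset.subset_univ _)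
      (fun q _ _ => le_max_left _ _)
  have hsum0 : 0 ≤ ∑ q, max 0 ((jj (s q).1 : ℝ) ^ 2 / (4 * lev i) - (i : ℝ) / 2) :=
    Finset.sum_nonneg fun q _ => le_max_left _ _
  have hp : (0 : ℝ) < 10 ^ i := by positivity
  rcases le_total (C * i) 0 with hneg | hpos
  · refine le_trans ?_ hsum0
    exact mul_nonpos_of_nonpos_of_nonneg hneg hp.le
  · refine le_trans ?_ hsum
    have h1 : 10 ^ i / 2 * (2 * (C * i)) ≤ (good.card : ℝ) * L :=
      mul_le_mul hgoodcard hLC (by linarith) (Nat.cast_nonneg _)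
    linarith

end Pool.Agent.KDS.H49
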